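import Mathlib

set_option autoImplicit false

open MeasureTheory Filter Topology

namespace Pool.Agent.Results.MP_ebdc6e_an.FractionalOSSSFails

/-! ### Boolean functions on the uniform cube `{-1,1}^n` -/

/-- The cube `{-1,1}^n`. -/
abbrev Cube (n : ℕ) : Type := Fin n → ℤˣ

/-- The point of `ℝ^n` given by a point of the cube. -/
def toVec {n : ℕ} (x : Cube n) : Fin n → ℝ := fun i => ((x i : ℤ) : ℝ)

/-- The point `x` with coordinate `i` flipped. -/
def flip {n : ℕ} (i : Fin n) (x : Cube n) : Cube n := Function.update x i (-(x i))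

/-- Mean of a real function under the uniform measure on the cube. -/
noncomputable def mean {n : ℕ} (g : Cube n → ℝ) : ℝ := (∑ x : Cube n, g x) / 2 ^ n

/-- The real value of a Boolean function. -/
def val {n : ℕ} (f : Cube n → ℤˣ) (x : Cube n) : ℝ := ((f x : ℤ) : ℝ)

/-- `Var(f) = E (f - E f)^2` under the uniform measure. -/
noncomputable def variance {n : ℕ} (f : Cube n → ℤˣ) : ℝ :=
  mean fun x => (val f x - mean (val f)) ^ 2

/-- `Inf_i(f)`: the probability, under the uniform measure, that flipping coordinate `i` changes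
the value of `f`. -/
noncomputable def influence {n : ℕ} (f : Cube n → ℤˣ) (i : Fin n) : ℝ :=
  mean fun x => if f x ≠ f (flip i x) then 1 else 0

/-! ### Fractional query algorithms -/

/-- A fractional query algorithm in discrete time, for uniform inputs on `{-1,1}^n`. -/
structure FractionalQueryAlgorithm (n : ℕ) where
  /-- the probability space -/
  Ω : Type
  /-- its sigma-algebra -/
  mΩ : MeasurableSpace Ω
  /-- its probability measure -/
  P : Measure Ω
  prob : IsProbabilityMeasure P
  /-- the process `X(t)`, `t = 0, 1, 2, ...` -/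
  X : ℕ → Ω → Fin n → ℝ
  meas : ∀ t, StronglyMeasurable (X t)
  mem_cube : ∀ t ω i, X t ω i ∈ Set.Icc (-1 : ℝ) 1
  start : ∀ ω, X 0 ω = 0
  /-- `X` is a martingale (each coordinate is) for its natural filtration -/
  martingale : ∀ i, Martingale (fun t ω => X t ω i) (Filtration.natural X meas) P
  /-- the terminal value `X(∞)` -/
  Xinf : Ω → Fin n → ℝ
  tendsto : ∀ᵐ ω ∂P, Tendsto (fun t => X t ω) atTop (𝓝 (Xinf ω))
  /-- the terminal value has the uniform law on `{-1,1}^n` -/
  law : ∀ x : Cube n, P {ω | Xinf ω = toVec x} = ((2 : ENNReal) ^ n)⁻¹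
  /-- the time at which the algorithm stops (`⊤` is the time `∞`) -/
  τ : Ω → WithTop ℕ
  stopping : IsStoppingTime (Filtration.natural X meas) τ
  /-- the output map -/
  A : (Fin n → ℝ) → ℝ
  /-- all the products of coordinates are martingales -/
  martingale_prod : ∀ S : Finset (Fin n),
    Martingale (fun t ω => ∏ i ∈ S, X t ω i) (Filtration.natural X meas) P

namespace FractionalQueryAlgorithm

variable {n : ℕ} (Q : FractionalQueryAlgorithm n)

/-- The stopped value `X(τ)`, with `X(∞)` for `τ = ∞`. -/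
def stopped (ω : Q.Ω) : Fin n → ℝ :=
  WithTop.recTopCoe (Q.Xinf ω) (fun t => Q.X t ω) (Q.τ ω)

/-- `Q` computes `f` with 0 error: `A(X(τ)) = f(X(∞))` almost surely. -/
def ZeroError (f : Cube n → ℤˣ) : Prop :=
  letI := Q.mΩ
  ∀ᵐ ω ∂Q.P, ∃ x : Cube n, Q.Xinf ω = toVec x ∧ Q.A (Q.stopped ω) = val f x

/-- The revealment `δ_i = E[X_i(τ)^2]`. -/
noncomputable def revealment (i : Fin n) : ℝ :=
  letI := Q.mΩ
  ∫ ω, (Q.stopped ω i) ^ 2 ∂Q.P

end FractionalQueryAlgorithm

/-! ### The example -/

section Example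

/-- uniform probability on 12 points -/
noncomputable def P12 : Measure (Fin 12) := (12 : ENNReal)⁻¹ • Measure.count

instance : IsProbabilityMeasure P12 := ⟨by
  simp only [P12, Measure.smul_apply, smul_eq_mul, Measure.count_apply MeasurableSet.univ]
  simp only [Set.encard_univ, ENat.card_eq_coe_fintype_card, Fintype.card_fin]
  norm_num
  exact ENNReal.inv_mul_cancel (by norm_num) (by norm_num)⟩

theorem integral_P12 (g : Fin 12 → ℝ) : ∫ ω, g ω ∂P12 = (1 / 12) * ∑ ω, g ω := by
  rw [P12, integral_smul_measure, integral_count]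
  simp

/-- first coordinate after the first step -/
noncomputable def x1 (ω : Fin 12) : ℝ := if ω.val < 4 then -1 else 1 / 2

/-- second coordinate after the second step -/
noncomputable def x2 (ω : Fin 12) : ℝ :=
  if ω.val < 2 then -1 else if ω.val < 4 then 1 else if ω.val < 8 then -1 else 1

/-- first coordinate after the third step -/
noncomputable def x3 (ω : Fin 12) : ℝ :=
  if ω.val < 4 then -1 else if ω.val = 4 ∨ ω.val = 8 then -1 else 1

/-- the process -/
noncomputable def X : ℕ → Fin 12 → Fin 2 → ℝ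
  | 0, _ => ![0, 0]
  | 1, ω => ![x1 ω, 0]
  | 2, ω => ![x1 ω, x2 ω]
  | _ + 3, ω => ![x3 ω, x2 ω]

theorem X_meas (t : ℕ) : StronglyMeasurable (X t) := StronglyMeasurable.of_discrete

theorem same_mem {t : ℕ} {s : Set (Fin 12)}
    (hs : MeasurableSet[Filtration.natural X X_meas t] s) {ω ω' : Fin 12}
    (h : ∀ j ≤ t, X j ω = X j ω') : ω ∈ s ↔ ω' ∈ s := by
  rw [Filtration.natural_eq_comap] at hs
  obtain ⟨B, _, rfl⟩ := hs
  simp only [Set.mem_preimage]
  have : (fun j : Set.Iic t => X j ω) = fun j : Set.Iic t => X j ω' := by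
    funext j
    exact h j j.2
  rw [this]

theorem setIntegral_P12 (g : Fin 12 → ℝ) (s : Set (Fin 12)) :
    ∫ ω in s, g ω ∂P12 = (1 / 12) * ∑ ω, s.indicator 1 ω * g ω := by
  classical
  rw [← integral_indicator MeasurableSet.of_discrete, integral_P12]
  congr 1
  refine Finset.sum_congr rfl fun ω _ => ?_
  by_cases h : ω ∈ s <;> simp [h]

theorem ind_eq {s : Set (Fin 12)} {ω ω' : Fin 12} (h : ω ∈ s ↔ ω' ∈ s) :
    s.indicator (1 : Fin 12 → ℝ) ω = s.indicator 1 ω' := by
  classical
  simp only [Set.indicator_apply, Pi.one_apply]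
  exact if_congr h rfl rfl

theorem adapted_prod (S : Finset (Fin 2)) :
    StronglyAdapted (Filtration.natural X X_meas) (fun t ω => ∏ i ∈ S, X t ω i) := by
  intro t
  have h := Filtration.stronglyAdapted_natural X_meas t
  exact Finset.stronglyMeasurable_fun_prod S fun i _ =>
    (continuous_apply i).comp_stronglyMeasurable h

theorem prod_eq (S : Finset (Fin 2)) (v : Fin 2 → ℝ) :
    ∏ i ∈ S, v i = (if 0 ∈ S then v 0 else 1) * (if 1 ∈ S then v 1 else 1) := by
  rw [← Finset.prod_ite_mem_eq, Fin.prod_univ_two]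

theorem sum12 (g : Fin 12 → ℝ) : ∑ ω, g ω =
    g 0 + g 1 + g 2 + g 3 + g 4 + g 5 + g 6 + g 7 + g 8 + g 9 + g 10 + g 11 := by
  simp only [Fin.sum_univ_castSucc, Fin.sum_univ_zero, zero_add]
  rfl

theorem step (S : Finset (Fin 2)) (t : ℕ) (s : Set (Fin 12))
    (hs : MeasurableSet[Filtration.natural X X_meas t] s) :
    ∫ ω in s, ∏ i ∈ S, X t ω i ∂P12 = ∫ ω in s, ∏ i ∈ S, X (t + 1) ω i ∂P12 := by
  have key : ∀ ω ω' : Fin 12, (∀ j ≤ t, X j ω = X j ω') →
      s.indicator (1 : Fin 12 → ℝ) ω = s.indicator 1 ω' := fun ω ω' h => ind_eq (same_mem hs h)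
  rw [setIntegral_P12, setIntegral_P12]
  congr 1
  simp only [prod_eq, sum12]
  match t, key with
  | 0, key =>
    have h0 : ∀ ω : Fin 12, s.indicator (1 : Fin 12 → ℝ) ω = s.indicator 1 0 := by
      intro ω
      apply key
      intro j hj
      obtain rfl : j = 0 := by omega
      rfl
    rw [h0 1, h0 2, h0 3, h0 4, h0 5, h0 6, h0 7, h0 8, h0 9, h0 10, h0 11]
    by_cases h1 : (0 : Fin 2) ∈ S <;> by_cases h2 : (1 : Fin 2) ∈ S <;>
      (simp [h1, h2, X, x1]; try ring)
  | 1, key =>
    have h0 : ∀ ω ω' : Fin 12, (ω.val < 4 ↔ ω'.val < 4) →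
        s.indicator (1 : Fin 12 → ℝ) ω = s.indicator 1 ω' := by
      intro ω ω' h
      apply key
      intro j hj
      obtain rfl | rfl : j = 0 ∨ j = 1 := by omega
      · rfl
      · simp [X, x1, h]
    rw [h0 1 0 (by decide), h0 2 0 (by decide), h0 3 0 (by decide), h0 5 4 (by decide),
      h0 6 4 (by decide), h0 7 4 (by decide), h0 8 4 (by decide), h0 9 4 (by decide),
      h0 10 4 (by decide), h0 11 4 (by decide)]
    by_cases h1 : (0 : Fin 2) ∈ S <;> by_cases h2 : (1 : Fin 2) ∈ S <;>
      simp [h1, h2, X, x1, x2]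
  | 2, key =>
    have h0 : ∀ ω ω' : Fin 12, (ω.val < 4 ↔ ω'.val < 4) →
        ((ω.val < 2 ∨ (¬ ω.val < 4 ∧ ω.val < 8)) ↔ (ω'.val < 2 ∨ (¬ ω'.val < 4 ∧ ω'.val < 8))) →
        s.indicator (1 : Fin 12 → ℝ) ω = s.indicator 1 ω' := by
      intro ω ω' h h'
      have hx2 : x2 ω = x2 ω' := by
        unfold x2
        split_ifs <;> first | rfl | (exfalso; omega)
      apply key
      intro j hj
      obtain rfl | rfl | rfl : j = 0 ∨ j = 1 ∨ j = 2 := by omega
      · rfl
      · simp [X, x1, h]
      · simp [X, x1, h, hx2]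
    rw [h0 1 0 (by decide) (by decide), h0 3 2 (by decide) (by decide),
      h0 5 4 (by decide) (by decide), h0 6 4 (by decide) (by decide),
      h0 7 4 (by decide) (by decide), h0 9 8 (by decide) (by decide),
      h0 10 8 (by decide) (by decide), h0 11 8 (by decide) (by decide)]
    by_cases h1 : (0 : Fin 2) ∈ S <;> by_cases h2 : (1 : Fin 2) ∈ S <;>
      simp [h1, h2, X, x1, x2, x3] <;> ring
  | t + 3, key => rfl

theorem martingale_prod (S : Finset (Fin 2)) :
    Martingale (fun t ω => ∏ i ∈ S, X t ω i) (Filtration.natural X X_meas) P12 := by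
  refine martingale_nat (adapted_prod S) (fun t => Integrable.of_finite) fun t => ?_
  refine ae_eq_condExp_of_forall_setIntegral_eq _ Integrable.of_finite
    (fun s _ _ => Integrable.of_finite.integrableOn) (fun s hs _ => step S t s hs)
    (adapted_prod S t).aestronglyMeasurable

/-- the stopping time: stop at time 1 if the first coordinate is `-1`, at time 2 if the second
coordinate is `-1`, at time 3 otherwise -/
def τn (ω : Fin 12) : ℕ := if ω.val < 4 then 1 else if ω.val < 8 then 2 else 3

/-- the stopping time, as a map to `WithTop ℕ` -/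
def τ (ω : Fin 12) : WithTop ℕ := WithTop.some (τn ω)

theorem X_meas_of_le {i j : ℕ} (h : j ≤ i) :
    Measurable[Filtration.natural X X_meas i] (X j) :=
  ((Filtration.stronglyAdapted_natural X_meas j).mono
    ((Filtration.natural X X_meas).mono h)).measurable

theorem meas_coord {i j : ℕ} (h : j ≤ i) (c : Fin 2) (r : ℝ) :
    MeasurableSet[Filtration.natural X X_meas i] {ω | X j ω c = r} := by
  have h1 : Measurable[Filtration.natural X X_meas i] (fun ω => X j ω c) :=
    (measurable_pi_apply c).comp (X_meas_of_le h)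
  exact h1 (measurableSet_singleton r)

theorem stopping : IsStoppingTime (Filtration.natural X X_meas) τ := by
  intro i
  have h0 : {ω | τ ω ≤ WithTop.some i} = {ω | τn ω ≤ i} := by
    ext ω
    exact WithTop.coe_le_coe
  rw [h0]
  match i with
  | 0 =>
    have : {ω | τn ω ≤ 0} = ∅ := by
      ext ω
      simp only [Set.mem_ofPred_eq, Set.mem_empty_iff_false, iff_false, not_le, τn]
      split_ifs <;> norm_num
    rw [this]
    exact @MeasurableSet.empty _ (Filtration.natural X X_meas 0)
  | 1 =>
    have : {ω | τn ω ≤ 1} = {ω | X 1 ω 0 = -1} := by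
      ext ω
      by_cases h : ω.val < 4
      · simp [τn, X, x1, h]
      · by_cases h2 : ω.val < 8
        · simp only [τn, X, x1, h, h2, Set.mem_ofPred_eq, if_false, if_true,
            Matrix.cons_val_zero]
          norm_num
        · simp only [τn, X, x1, h, h2, Set.mem_ofPred_eq, if_false,
            Matrix.cons_val_zero]
          norm_num
    rw [this]
    exact meas_coord le_rfl 0 (-1)
  | 2 =>
    have : {ω | τn ω ≤ 2} = {ω | X 1 ω 0 = -1} ∪ {ω | X 2 ω 1 = -1} := by
      ext ω
      by_cases h : ω.val < 4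
      · simp [τn, X, x1, h]
      · have h' : ¬ ω.val < 2 := by omega
        by_cases h2 : ω.val < 8
        · simp [τn, X, x2, h, h2]
        · simp only [τn, X, x1, x2, h, h', h2, Set.mem_ofPred_eq, Set.mem_union, if_false,
            Matrix.cons_val_zero, Matrix.cons_val_one]
          norm_num
    rw [this]
    exact (meas_coord (by norm_num) 0 (-1)).union (meas_coord le_rfl 1 (-1))
  | i + 3 =>
    have : {ω | τn ω ≤ i + 3} = Set.univ := by
      ext ω
      simp only [Set.mem_ofPred_eq, Set.mem_univ, iff_true, τn]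
      split_ifs <;> omega
    rw [this]
    exact MeasurableSet.univ

theorem P12_finset (s : Finset (Fin 12)) : P12 (s : Set (Fin 12)) = s.card / 12 := by
  rw [P12, Measure.smul_apply, Measure.count_apply_finset, smul_eq_mul, mul_comm,
    ENNReal.div_eq_inv_mul, mul_comm]

theorem law (x : Cube 2) : P12 {ω | X 3 ω = toVec x} = ((2 : ENNReal) ^ 2)⁻¹ := by
  have h3 : ∀ s : Finset (Fin 12), s.card = 3 → P12 (s : Set (Fin 12)) = ((2 : ENNReal) ^ 2)⁻¹ := by
    intro s hs
    rw [P12_finset, hs]
    have h1 : ((2 : ENNReal) ^ 2)⁻¹ = ((3 : ℕ) : ENNReal) * ((3 : ℕ) * (4 : ENNReal))⁻¹ := by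
      rw [ENNReal.mul_inv (by norm_num) (by norm_num), ← mul_assoc,
        ENNReal.mul_inv_cancel (by norm_num) (by norm_num), one_mul]
      norm_num
    rw [h1, ENNReal.div_eq_inv_mul, mul_comm]
    norm_num
  have hx : ∀ ω, X 3 ω = toVec x ↔ (x3 ω = ((x 0 : ℤ) : ℝ) ∧ x2 ω = ((x 1 : ℤ) : ℝ)) := by
    intro ω
    constructor
    · intro h
      exact ⟨congrFun h 0, congrFun h 1⟩
    · rintro ⟨h0, h1⟩
      funext i
      fin_cases i
      · exact h0
      · exact h1
  simp only [hx]
  rcases Int.units_eq_one_or (x 0) with h0 | h0 <;> rcases Int.units_eq_one_or (x 1) with h1 | h1 <;>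
    rw [h0, h1]
  · rw [← h3 {9, 10, 11} rfl]
    congr 1
    ext ω
    fin_cases ω <;> simp [x3, x2] <;> norm_num
  · rw [← h3 {5, 6, 7} rfl]
    congr 1
    ext ω
    fin_cases ω <;> simp [x3, x2] <;> norm_num
  · rw [← h3 {2, 3, 8} rfl]
    congr 1
    ext ω
    fin_cases ω <;> simp [x3, x2] <;> norm_num
  · rw [← h3 {0, 1, 4} rfl]
    congr 1
    ext ω
    fin_cases ω <;> simp [x3, x2] <;> norm_num

theorem mem_cube (t : ℕ) (ω : Fin 12) (i : Fin 2) : X t ω i ∈ Set.Icc (-1 : ℝ) 1 := by
  have h1 : x1 ω ∈ Set.Icc (-1 : ℝ) 1 := by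
    unfold x1; split_ifs <;> constructor <;> norm_num
  have h2 : x2 ω ∈ Set.Icc (-1 : ℝ) 1 := by
    unfold x2; split_ifs <;> constructor <;> norm_num
  have h3 : x3 ω ∈ Set.Icc (-1 : ℝ) 1 := by
    unfold x3; split_ifs <;> constructor <;> norm_num
  have h0 : (0 : ℝ) ∈ Set.Icc (-1 : ℝ) 1 := by constructor <;> norm_num
  match t with
  | 0 => fin_cases i <;> exact h0
  | 1 => fin_cases i
         · exact h1
         · exact h0
  | 2 => fin_cases i
         · exact h1
         · exact h2
  | t + 3 => fin_cases i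
             · exact h3
             · exact h2

/-- The example: a fractional query algorithm on 2 bits. -/
noncomputable def Q : FractionalQueryAlgorithm 2 where
  Ω := Fin 12
  mΩ := inferInstance
  P := P12
  prob := inferInstance
  X := X
  meas := X_meas
  mem_cube := mem_cube
  start := fun ω => by
    funext i
    fin_cases i <;> rfl
  martingale := fun i => by
    have h := martingale_prod {i}
    simpa only [Finset.prod_singleton] using h
  Xinf := X 3
  tendsto := ae_of_all _ fun ω => by
    refine tendsto_atTop_of_eventually_const (i₀ := 3) fun t ht => ?_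
    obtain ⟨k, rfl⟩ := Nat.exists_eq_add_of_le' ht
    rfl
  law := law
  τ := τ
  stopping := stopping
  A := fun v => if v = ![1, 1] then 1 else -1
  martingale_prod := martingale_prod

/-- AND of two bits (`1` is true). -/
def andF (x : Cube 2) : ℤˣ := if x = 1 then 1 else -1

theorem mean_cube2 (g : Cube 2 → ℝ) :
    mean g = (g ![1, 1] + g ![1, -1] + g ![-1, 1] + g ![-1, -1]) / 4 := by
  have h : (Finset.univ : Finset (Cube 2)) = {![1, 1], ![1, -1], ![-1, 1], ![-1, -1]} := by
    decide
  rw [mean, h]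
  rw [Finset.sum_insert (by decide), Finset.sum_insert (by decide), Finset.sum_insert (by decide),
    Finset.sum_singleton]
  norm_num
  ring

theorem val_and (x : Cube 2) : val andF x = if x = 1 then 1 else -1 := by
  unfold val andF
  split_ifs <;> simp

theorem variance_and : variance andF = 3 / 4 := by
  have e1 : (![1, 1] : Cube 2) = 1 := by decide
  have e2 : (![1, -1] : Cube 2) ≠ 1 := by decide
  have e3 : (![-1, 1] : Cube 2) ≠ 1 := by decide
  have e4 : (![-1, -1] : Cube 2) ≠ 1 := by decide
  have hm : mean (val andF) = -1 / 2 := by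
    rw [mean_cube2, val_and, val_and, val_and, val_and, if_pos e1, if_neg e2, if_neg e3, if_neg e4]
    norm_num
  unfold variance
  rw [mean_cube2, hm, val_and, val_and, val_and, val_and, if_pos e1, if_neg e2, if_neg e3,
    if_neg e4]
  norm_num

theorem influence_and (i : Fin 2) : influence andF i = 1 / 2 := by
  unfold influence
  rw [mean_cube2]
  fin_cases i
  · have e1 : andF ![1, 1] ≠ andF (flip 0 ![1, 1]) := by decide
    have e2 : ¬ (andF ![1, -1] ≠ andF (flip 0 ![1, -1])) := by decide
    have e3 : andF ![-1, 1] ≠ andF (flip 0 ![-1, 1]) := by decide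
    have e4 : ¬ (andF ![-1, -1] ≠ andF (flip 0 ![-1, -1])) := by decide
    simp only [Fin.zero_eta, Fin.isValue]
    rw [if_pos e1, if_neg e2, if_pos e3, if_neg e4]
    norm_num
  · have e1 : andF ![1, 1] ≠ andF (flip 1 ![1, 1]) := by decide
    have e2 : andF ![1, -1] ≠ andF (flip 1 ![1, -1]) := by decide
    have e3 : ¬ (andF ![-1, 1] ≠ andF (flip 1 ![-1, 1])) := by decide
    have e4 : ¬ (andF ![-1, -1] ≠ andF (flip 1 ![-1, -1])) := by decide
    simp only [Fin.mk_one, Fin.isValue]
    rw [if_pos e1, if_pos e2, if_neg e3, if_neg e4]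
    norm_num

theorem stopped_eq (ω : Fin 12) : Q.stopped ω = X (τn ω) ω := rfl

theorem X_tau (ω : Fin 12) : X (τn ω) ω =
    if ω.val < 4 then ![-1, 0] else if ω.val < 8 then ![1 / 2, -1] else ![x3 ω, 1] := by
  by_cases h : ω.val < 4
  · simp [τn, X, x1, h]
  · by_cases h2 : ω.val < 8
    · have h3 : ¬ ω.val < 2 := by omega
      simp [τn, X, x1, x2, h, h2, h3]
    · have h3 : ¬ ω.val < 2 := by omega
      simp [τn, X, x2, h, h2, h3]

theorem revealment_zero : Q.revealment 0 = 3 / 4 := by
  change ∫ ω, (Q.stopped ω 0) ^ 2 ∂P12 = 3 / 4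
  rw [integral_P12, sum12]
  simp only [stopped_eq, X_tau]
  simp [x3]
  norm_num

theorem revealment_one : Q.revealment 1 = 2 / 3 := by
  change ∫ ω, (Q.stopped ω 1) ^ 2 ∂P12 = 2 / 3
  rw [integral_P12, sum12]
  simp only [stopped_eq, X_tau]
  simp
  norm_num

/-- the value of the input at `∞` -/
noncomputable def inp (ω : Fin 12) : Cube 2 :=
  ![if ω.val < 4 then -1 else if ω.val = 4 ∨ ω.val = 8 then -1 else 1,
    if ω.val < 2 then -1 else if ω.val < 4 then 1 else if ω.val < 8 then -1 else 1]

theorem out_eq (ω : Fin 12) :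
    (if X (τn ω) ω = ![1, 1] then (1 : ℝ) else -1) = val andF (inp ω) := by
  rw [X_tau, val_and]
  by_cases h : ω.val < 4
  · have h1 : inp ω ≠ 1 := fun hh => by
      have := congrFun hh 0
      simp [inp, h] at this
    rw [if_pos h, if_neg h1, if_neg]
    intro hh
    have := congrFun hh 0
    norm_num at this
  · by_cases h2 : ω.val < 8
    · have h1 : inp ω ≠ 1 := fun hh => by
        have := congrFun hh 1
        have h3 : ¬ ω.val < 2 := by omega
        simp [inp, h, h2] at this
      rw [if_neg h, if_pos h2, if_neg h1, if_neg]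
      intro hh
      have := congrFun hh 0
      norm_num at this
    · rw [if_neg h, if_neg h2]
      have h3 : ¬ ω.val < 2 := by omega
      by_cases h8 : ω.val = 8
      · have h1 : inp ω ≠ 1 := fun hh => by
          have := congrFun hh 0
          simp [inp, h8] at this
        rw [if_neg h1, if_neg]
        intro hh
        have := congrFun hh 0
        simp [x3, h8] at this
        norm_num at this
      · have h4 : ω.val ≠ 4 := by omega
        have h1 : inp ω = 1 := by
          funext i
          fin_cases i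
          · simp [inp, h, h4, h8]
          · simp [inp, h, h2, h3]
        have hx : x3 ω = 1 := by simp [x3, h, h4, h8]
        rw [if_pos h1, hx, if_pos rfl]

theorem zeroError : Q.ZeroError andF := by
  refine ae_of_all _ fun ω => ⟨inp ω, ?_, out_eq ω⟩
  change X 3 ω = toVec (inp ω)
  funext i
  fin_cases i
  · simp only [X, x3, toVec, inp, Fin.zero_eta, Fin.isValue, Matrix.cons_val_zero]
    split_ifs <;> simp
  · simp only [X, x2, toVec, inp, Fin.mk_one, Fin.isValue, Matrix.cons_val_one,
      Matrix.cons_val_fin_one]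
    split_ifs <;> simp

/-- each step of the example changes only one coordinate -/
theorem one_coord (t : ℕ) (ω : Fin 12) : ∃ i : Fin 2, ∀ j, j ≠ i → X (t + 1) ω j = X t ω j := by
  match t with
  | 0 => exact ⟨0, fun j hj => by fin_cases j <;> simp_all [X]⟩
  | 1 => exact ⟨1, fun j hj => by fin_cases j <;> simp_all [X]⟩
  | 2 => exact ⟨0, fun j hj => by fin_cases j <;> simp_all [X]⟩
  | t + 3 => exact ⟨0, fun j hj => rfl⟩

end Example

/-- The OSSS inequality fails for fractional query algorithms, even for those which change only one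
coordinate in each step. -/
theorem result : ∃ (n : ℕ) (f : Cube n → ℤˣ) (Q : FractionalQueryAlgorithm n),
    Q.ZeroError f ∧
    (∀ t ω, ∃ i, ∀ j, j ≠ i → Q.X (t + 1) ω j = Q.X t ω j) ∧
    ∑ i, Q.revealment i * influence f i < variance f := by
  refine ⟨2, andF, Q, zeroError, one_coord, ?_⟩
  rw [Fin.sum_univ_two, revealment_zero, revealment_one, influence_and, influence_and, variance_and]
  norm_num

end Pool.Agent.Results.MP_ebdc6e_an.FractionalOSSSFails
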